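import Mathlib
import Pool.Agent.Work.MP_12f267_ag.Statement

/-! Products of Brauer-Severi varieties with affine spaces. -/

open TensorProduct

namespace Pool.Agent.MP12f267

universe u

/-- `E` is the function field of `X_A × 𝔸^N`: it is a purely transcendental extension of degree `N`
of a function field of the Brauer-Severi variety `X_A`. -/
def IsFunctionFieldTimes (F A E : Type u) [Field F] [Ring A] [Algebra F A] [Field E] [Algebra F E]
    (N : ℕ) : Prop :=
  ∃ (K : Type u) (_ : Field K) (_ : Algebra F K) (_ : Algebra K E) (_ : IsScalarTower F K E)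
    (t : Fin N → E), IsFunctionField F A K ∧ AlgebraicIndependent K t ∧
      IntermediateField.adjoin K (Set.range t) = ⊤

/-- The varieties `X_A × 𝔸^N` and `X_B × 𝔸^N` are birational over `F`: they have the same function
field. -/
def BirationalTimes (F A B : Type u) [Field F] [Ring A] [Algebra F A] [Ring B] [Algebra F B]
    (N : ℕ) : Prop :=
  ∃ (E : Type u) (_ : Field E) (_ : Algebra F E),
    IsFunctionFieldTimes F A E N ∧ IsFunctionFieldTimes F B E N

/-- For each prime power `p ^ f` exactly dividing `t`, the integer `r` is `± 2 ^ j` modulo `p ^ f`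
for some `j`, with `j = 0` if `p = 2`. -/
def GoodMultiplier (r t : ℕ) : Prop :=
  ∀ p f : ℕ, p.Prime → p ^ f ∣ t → ¬ p ^ (f + 1) ∣ t →
    ∃ j : ℕ, (p = 2 → j = 0) ∧
      (((p ^ f : ℕ) : ℤ) ∣ (r : ℤ) - 2 ^ j ∨ ((p ^ f : ℕ) : ℤ) ∣ (r : ℤ) + 2 ^ j)

end Pool.Agent.MP12f267
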