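import Mathlib
import Pool.Agent.Work.MP_12f267_stb.Defs
import Pool.Agent.Work.MP_12f267_ag.DENS
import Pool.Agent.Work.MP_12f267_ag.SUM
import Pool.Agent.Work.MP_12f267_ag.FIN
import Pool.Agent.Work.MP_12f267_ag.FibB

/-! The fixed field of a two-step extension. -/

open TensorProduct Cardinal

namespace Pool.Agent.MP12f267

universe u

namespace Stb

section Fixed

variable {G L K : Type u} [Group G] [Field L] [Field K] [Algebra L K] [MulSemiringAction G L]
  [MulSemiringAction G K] [GField G L K]

/-- A `G`-field is spanned by its fixed elements. -/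
lemma mem_span_fixed [Finite G] [FaithfulSMul G L] (z : K) :
    z ∈ Submodule.span L {w : K | ∀ g : G, g • w = w} := by
  let V : Submodule L K := Submodule.span L (Set.range fun g : G => g • z)
  have hV : ∀ (g : G) (w : K), w ∈ V → g • w ∈ V := by
    intro g w hw
    induction hw using Submodule.span_induction with
    | mem x hx =>
      obtain ⟨h, rfl⟩ := hx
      refine Submodule.subset_span ⟨g * h, ?_⟩
      exact mul_smul g h z
    | zero => rw [smul_zero]; exact V.zero_mem
    | add x y _ _ hx hy => rw [smul_add]; exact V.add_mem hx hy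
    | smul c x _ hx =>
      have e : g • (c • x) = (g • c) • (g • x) := by
        rw [Algebra.smul_def, Algebra.smul_def, smul_mul', GField.smul_algebraMap]
      rw [e]
      exact V.smul_mem _ hx
  have hfd : FiniteDimensional L V := FiniteDimensional.span_of_finite L (Set.finite_range _)
  let ρ : G → V → V := fun g v => ⟨g • (v : K), hV g v v.2⟩
  have hd := stmt_DESC G L V ρ (fun g x y => Subtype.ext (smul_add g (x : K) (y : K)))
    (fun g c x => Subtype.ext (by
      show g • (c • (x : K)) = (g • c) • (g • (x : K))
      rw [Algebra.smul_def, Algebra.smul_def, smul_mul', GField.smul_algebraMap]))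
    (fun g h x => Subtype.ext (mul_smul g h (x : K)).symm)
    (fun x => Subtype.ext (one_smul G (x : K)))
  have hz : z ∈ V := Submodule.subset_span ⟨1, one_smul G z⟩
  have h1 : (⟨z, hz⟩ : V) ∈ Submodule.span L {x : V | ∀ g, ρ g x = x} := by
    rw [hd]; trivial
  have h2 : (V.subtype ⟨z, hz⟩) ∈ (Submodule.span L {x : V | ∀ g, ρ g x = x}).map V.subtype :=
    Submodule.mem_map_of_mem h1
  rw [Submodule.map_span] at h2
  refine Submodule.span_mono ?_ h2
  rintro _ ⟨x, hx, rfl⟩ g
  exact congrArg Subtype.val (hx g)

end Fixed

end Stb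

end Pool.Agent.MP12f267
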