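import Mathlib
import Pool.Agent.Work.MP_12f267_stb.Side

/-! The fixed field of a purely transcendental extension with fixed parameters. -/

open TensorProduct Cardinal

namespace Pool.Agent.MP12f267

universe u

namespace Stb

section Times

variable {F L A E : Type u} [Field F] [Field L] [Algebra F L] [FiniteDimensional F L]
  [IsGalois F L] [Ring A] [Algebra F A] [Field E] [Algebra L E] [Algebra F E]
  [IsScalarTower F L E] [MulSemiringAction (L ≃ₐ[F] L) E] [GField (L ≃ₐ[F] L) L E]

lemma fixed_mem_adjoin (K₁ : IntermediateField L E)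
    (hK₁ : ∀ (g : L ≃ₐ[F] L) (z : E), z ∈ K₁ → g • z ∈ K₁) (T : Set E)
    (hT : ∀ (g : L ≃ₐ[F] L), ∀ z ∈ T, g • z = z) (hgen : IntermediateField.adjoin K₁ T = ⊤)
    (z : E) (hz : ∀ g : L ≃ₐ[F] L, g • z = z) :
    z ∈ IntermediateField.adjoin F ({w : E | w ∈ K₁ ∧ ∀ g : L ≃ₐ[F] L, g • w = w} ∪ T) := by
  set S : Set E := {w : E | w ∈ K₁ ∧ ∀ g : L ≃ₐ[F] L, g • w = w} ∪ T with hS
  have hSf : ∀ (g : L ≃ₐ[F] L), ∀ z ∈ S, g • z = z := by
    rintro g z (h | h)
    · exact h.2 g
    · exact hT g z h
  have hle : IntermediateField.adjoin F S ≤ fixedIF F L E := by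
    rw [IntermediateField.adjoin_le_iff]
    intro w hw g
    exact hSf g w hw
  refine FinBlock.mem_of_fixed (L := L) (IntermediateField.adjoin F S) (fun g w hw => hle hw g)
    ?_ z hz
  set N := IntermediateField.adjoin (IntermediateField.adjoin F S) (Set.range (algebraMap L E))
    with hN
  have hLN : ∀ l : L, algebraMap L E l ∈ N := fun l =>
    IntermediateField.subset_adjoin _ _ ⟨l, rfl⟩
  have hSN : ∀ w ∈ S, w ∈ N := by
    intro w hw
    exact N.algebraMap_mem (⟨w, IntermediateField.subset_adjoin _ _ hw⟩ :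
      IntermediateField.adjoin F S)
  let := stabAct K₁ hK₁
  have := stabAct_gField K₁ hK₁
  have hKN : ∀ w : K₁, (w : E) ∈ N := by
    intro w
    have h1 := mem_span_fixed (G := L ≃ₐ[F] L) (L := L) (K := K₁) w
    induction h1 using Submodule.span_induction with
    | mem x hx =>
      exact hSN _ (Or.inl ⟨x.2, fun g => congrArg Subtype.val (hx g)⟩)
    | zero => exact N.zero_mem
    | add x y _ _ hx hy => exact N.add_mem hx hy
    | smul c x _ hx =>
      have : ((c • x : K₁) : E) = algebraMap L E c * (x : E) := by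
        rw [Algebra.smul_def]; rfl
      rw [this]
      exact N.mul_mem (hLN c) hx
  let N' : IntermediateField K₁ E :=
    { N.toSubfield with
      algebraMap_mem' := hKN }
  have hN' : N' = ⊤ := by
    rw [eq_top_iff, ← hgen, IntermediateField.adjoin_le_iff]
    intro w hw
    exact hSN w (Or.inr hw)
  rw [eq_top_iff]
  intro w _
  have : w ∈ N' := by rw [hN']; exact IntermediateField.mem_top
  exact this

theorem times_of (K₁ : IntermediateField L E)
    (hK₁ : ∀ (g : L ≃ₐ[F] L) (z : E), z ∈ K₁ → g • z ∈ K₁) (n : ℕ) (t : Fin n → E)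
    (ht : ∀ (g : L ≃ₐ[F] L) (i : Fin n), g • t i = t i) (hind : AlgebraicIndependent K₁ t)
    (hgen : IntermediateField.adjoin K₁ (Set.range t) = ⊤)
    (hA : @IsFunctionField F A (@fixedIF F L K₁ _ _ _ _ _ _ _ (stabAct K₁ hK₁)
      (stabAct_gField K₁ hK₁)) _ _ _ _ _) :
    IsFunctionFieldTimes F A (fixedIF F L E) n := by
  let := stabAct K₁ hK₁
  have := stabAct_gField K₁ hK₁
  let φ : fixedIF F L K₁ →+* fixedIF F L E :=
    { toFun := fun x => ⟨((x : K₁) : E), fun g => congrArg Subtype.val (x.2 g)⟩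
      map_one' := rfl
      map_mul' := fun _ _ => rfl
      map_zero' := rfl
      map_add' := fun _ _ => rfl }
  let algKE : Algebra (fixedIF F L K₁) (fixedIF F L E) := φ.toAlgebra
  have hφ : ∀ x : fixedIF F L K₁, ((algebraMap (fixedIF F L K₁) (fixedIF F L E) x :
    fixedIF F L E) : E) = ((x : K₁) : E) := fun x => rfl
  have : IsScalarTower F (fixedIF F L K₁) (fixedIF F L E) :=
    IsScalarTower.of_algebraMap_eq fun x => rfl
  let t' : Fin n → fixedIF F L E := fun i => ⟨t i, fun g => ht g i⟩
  refine ⟨fixedIF F L K₁, inferInstance, inferInstance, algKE, inferInstance, t', hA, ?_, ?_⟩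
  · have h1 : AlgebraicIndependent (fixedIF F L K₁) t :=
      AlgebraicIndependent.restrictScalars (K := K₁) (algebraMap (fixedIF F L K₁) K₁).injective hind
    let ψ : fixedIF F L E →ₐ[fixedIF F L K₁] E :=
      { (fixedIF F L E).val.toRingHom with
        commutes' := fun x => rfl }
    exact AlgebraicIndependent.of_comp ψ h1
  · rw [eq_top_iff]
    intro z _
    have h1 := fixed_mem_adjoin K₁ hK₁ (Set.range t) (by
      rintro g _ ⟨i, rfl⟩
      exact ht g i) hgen z (fun g => z.2 g)
    have h2 : IntermediateField.adjoin F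
        ({w : E | w ∈ K₁ ∧ ∀ g : L ≃ₐ[F] L, g • w = w} ∪ Set.range t) ≤
        ((IntermediateField.adjoin (fixedIF F L K₁) (Set.range t')).restrictScalars F).map
          (fixedIF F L E).val := by
      rw [IntermediateField.adjoin_le_iff]
      rintro w (⟨hw1, hw2⟩ | ⟨i, rfl⟩)
      · let x : fixedIF F L K₁ := ⟨⟨w, hw1⟩, fun g => Subtype.ext (hw2 g)⟩
        have hx : algebraMap (fixedIF F L K₁) (fixedIF F L E) x ∈
            IntermediateField.adjoin (fixedIF F L K₁) (Set.range t') :=
          IntermediateField.algebraMap_mem _ x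
        exact ⟨algebraMap (fixedIF F L K₁) (fixedIF F L E) x, hx, rfl⟩
      · have hx : t' i ∈ IntermediateField.adjoin (fixedIF F L K₁) (Set.range t') :=
          IntermediateField.subset_adjoin _ _ ⟨i, rfl⟩
        exact ⟨t' i, hx, rfl⟩
    obtain ⟨q, hq1, hq2⟩ := h2 h1
    have : q = z := Subtype.ext hq2
    rw [← this]
    exact hq1

end Times

end Stb

end Pool.Agent.MP12f267
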