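import Mathlib
import Pool.Agent.Work.MP_12f267_stb.Times

/-! One side of the stable birationality. -/

open TensorProduct Cardinal

namespace Pool.Agent.MP12f267

universe u

namespace Stb

section General

variable {G L : Type u} [Group G] [Field L] [MulSemiringAction G L]

/-- The field of ratios of a point: the point is generic there if the transcendence degree is
right. -/
lemma gen_projField {ι E : Type u} [Fintype ι] [DecidableEq ι] (M : PMod G L ι) [Field E]
    [Algebra L E] [MulSemiringAction G E] [GField G L E] (w : ι → E) (j : ι) (hj : w j = 1)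
    (hpt : ∀ g : G, ∃ μ : E, μ ≠ 0 ∧
      ((M.P g).map (algebraMap L E)).mulVec (fun i => g • w i) = μ • w)
    (K₁ : IntermediateField L E) (hK₁ : K₁ = projField L w)
    (hst : ∀ (g : G) (z : E), z ∈ K₁ → g • z ∈ K₁) :
    ∃ w' : ι → K₁, (∀ i, (w' i : E) = w i) ∧ projField L w' = ⊤ ∧
      ∃ l : G → K₁, (∀ g, l g ≠ 0) ∧
        ∀ g, ((M.P g).map (algebraMap L K₁)).mulVec
          (fun i => (⟨g • (w' i : E), hst g _ (w' i).2⟩ : K₁)) = l g • w' := by
  subst hK₁
  choose μ hμ0 hμ using hpt
  let w' : ι → projField L w := fun i => ⟨w i, mem_projField_of_one w j hj i⟩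
  have hw'j : w' j = 1 := Subtype.ext hj
  have hμF : ∀ g, μ g ∈ projField L w := by
    intro g
    have e := congrFun (hμ g) j
    have e2 : (μ g • w) j = μ g := by
      simp only [Pi.smul_apply, smul_eq_mul]
      rw [hj, mul_one]
    rw [e2] at e
    rw [← e]
    simp only [Matrix.mulVec, dotProduct, Matrix.map_apply]
    exact sum_mem (fun i _ => (projField L w).mul_mem ((projField L w).algebraMap_mem _)
      (hst g _ (w' i).2))
  refine ⟨w', fun _ => rfl, ?_, fun g => ⟨μ g, hμF g⟩, fun g h => hμ0 g (congrArg Subtype.val h),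
    ?_⟩
  · have e := adjoin_in_adjoin (L := L) {z : E | ∃ i j, z = w i / w j}
    rw [eq_top_iff]
    intro z _
    have hz : z ∈ IntermediateField.adjoin L
        {z : IntermediateField.adjoin L {z : E | ∃ i j, z = w i / w j} |
          (z : E) ∈ {z : E | ∃ i j, z = w i / w j}} := by
      rw [e]; trivial
    refine IntermediateField.adjoin.mono L _ _ ?_ hz
    rintro y ⟨i, k, hy⟩
    exact ⟨i, k, Subtype.ext hy⟩
  · intro g
    funext i
    apply Subtype.ext
    rw [coe_mulVec]
    exact congrFun (hμ g) i

/-- Base change of a point. -/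
lemma pt_map {τ K₀ E : Type u} [Fintype τ] [DecidableEq τ] (N : PMod G L τ) [Field K₀]
    [Algebra L K₀] [MulSemiringAction G K₀] [Field E] [Algebra K₀ E]
    [MulSemiringAction G E] [GField G K₀ E] [Algebra L E] [IsScalarTower L K₀ E] (y : τ → K₀)
    (g : G) (μ : K₀) (h : ((N.P g).map (algebraMap L K₀)).mulVec (fun i => g • y i) = μ • y) :
    ((N.P g).map (algebraMap L E)).mulVec (fun i => g • algebraMap K₀ E (y i)) =
      algebraMap K₀ E μ • fun i => algebraMap K₀ E (y i) := by
  funext i
  have h1 := congrArg (algebraMap K₀ E) (congrFun h i)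
  simp only [Matrix.mulVec, dotProduct, Matrix.map_apply, Pi.smul_apply, smul_eq_mul, map_sum,
    map_mul] at h1 ⊢
  rw [← h1]
  refine Finset.sum_congr rfl fun l _ => ?_
  rw [GField.smul_algebraMap, ← IsScalarTower.algebraMap_apply L K₀ E]

end General

end Stb

end Pool.Agent.MP12f267
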