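import Mathlib
import Pool.Agent.Work.MP_12f267_stb.SideB

/-! One side of the stable birationality: the trivialised point. -/

open TensorProduct Cardinal

namespace Pool.Agent.MP12f267

universe u

namespace Stb

section Triv

variable {G L K₁ E : Type u} [Group G] [Field L] [MulSemiringAction G L] [Field K₁]
  [Algebra L K₁] [MulSemiringAction G K₁] [GField G L K₁] [Field E] [Algebra K₁ E]
  [MulSemiringAction G E] [GField G K₁ E] [Algebra L E] [IsScalarTower L K₁ E]

/-- If the class of `N` is trivial over `K₁` then the ratios of a point of `N` in `E` generate the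
same field over `K₁` as `d - 1` fixed elements. -/
theorem triv_params [Finite G] [FaithfulSMul G K₁] (hinf : InfFix G K₁) {τ : Type u} [Fintype τ]
    [DecidableEq τ] (N : PMod G L τ) (l : G → K₁) (hl : ∀ g, l g ≠ 0)
    (h : ∀ g k, l g * g • l k = algebraMap L K₁ (N.a g k) * l (g * k)) (y : τ → E) (i0 : τ)
    (hy0 : y i0 = 1)
    (hpt : ∀ g : G, ∃ μ : E, μ ≠ 0 ∧
      ((N.P g).map (algebraMap L E)).mulVec (fun i => g • y i) = μ • y) :
    ∃ (i1 : τ) (t : {i : τ // i ≠ i1} → E), (∀ (g : G) i, g • t i = t i) ∧
      ∀ i, y i ∈ IntermediateField.adjoin K₁ (Set.range t) := by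
  choose μ hμ0 hμ using hpt
  obtain ⟨S, T, hST, hTS, hS⟩ := exists_triv hinf (τ := τ) rfl N l hl h
  let φ := algebraMap K₁ E
  have hmul : ∀ {α β γ : Type u} [Fintype β] (A : Matrix α β K₁) (B : Matrix β γ K₁),
      (A * B).map φ = A.map φ * B.map φ := fun A B => Matrix.map_mul
  have hone : ∀ {α : Type u} [DecidableEq α], (1 : Matrix α α K₁).map φ = 1 :=
    Matrix.map_one _ (map_zero _) (map_one _)
  have hgm : ∀ {α β : Type u} (g : G) (A : Matrix α β K₁),
      (A.map φ).map (fun z => g • z) = (A.map (fun z => g • z)).map φ := by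
    intro α β g A
    ext i k
    exact GField.smul_algebraMap g (A i k)
  have hact : ∀ {α β : Type u} [Fintype β] (g : G) (A : Matrix α β K₁) (v : β → E),
      (fun i => g • ((A.map φ).mulVec v) i) =
        ((A.map (fun z => g • z)).map φ).mulVec (fun i => g • v i) := by
    intro α β _ g A v
    rw [smul_mulVec', hgm]
  have hLF : ∀ {α β : Type u} (A : Matrix α β L),
      A.map (algebraMap L E) = (A.map (algebraMap L K₁)).map φ := by
    intro α β A
    ext i k
    exact IsScalarTower.algebraMap_apply L K₁ E (A i k)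
  let v : τ → E := (T.map φ).mulVec y
  have hSv : (S.map φ).mulVec v = y := by
    show (S.map φ).mulVec ((T.map φ).mulVec y) = y
    rw [Matrix.mulVec_mulVec, ← hmul, hST, hone, Matrix.one_mulVec]
  have hScoe : ∀ g, (N.P g).map (algebraMap L E) * (S.map (fun z => g • z)).map φ =
      φ (l g) • S.map φ := by
    intro g
    rw [hLF, ← hmul, hS g]
    ext i k
    simp only [Matrix.map_apply, Matrix.smul_apply, smul_eq_mul, map_mul]
  have hφl : ∀ g, φ (l g) ≠ 0 := fun g => by
    simpa [φ] using hl g
  have hv : ∀ g : G, (fun i => g • v i) = (μ g / φ (l g)) • v := by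
    intro g
    have e1 := hμ g
    rw [← hSv, hact, Matrix.mulVec_mulVec, hScoe, Matrix.smul_mulVec] at e1
    have e2 : (S.map φ).mulVec (fun i => g • v i) = (S.map φ).mulVec ((μ g / φ (l g)) • v) := by
      rw [Matrix.mulVec_smul]
      have h3 := congrArg (fun w => (φ (l g))⁻¹ • w) e1
      simp only [smul_smul, inv_mul_cancel₀ (hφl g), one_smul] at h3
      rw [h3]
      congr 1
      rw [div_eq_mul_inv, mul_comm]
    have e3 := congrArg (fun v => (T.map φ).mulVec v) e2
    simp only [Matrix.mulVec_mulVec, ← hmul, hTS, hone, Matrix.one_mulVec] at e3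
    exact e3
  have hy : y ≠ 0 := by
    intro h0
    have := congrFun h0 i0
    rw [hy0] at this
    exact one_ne_zero this
  have hv0 : v ≠ 0 := by
    intro h0
    rw [h0, Matrix.mulVec_zero] at hSv
    exact hy hSv.symm
  obtain ⟨i1, hi1⟩ := Function.ne_iff.mp hv0
  simp only [Pi.zero_apply] at hi1
  refine ⟨i1, fun i => v i.1 / v i1, ?_, ?_⟩
  · intro g i
    have h1 := congrFun (hv g) i.1
    have h2 := congrFun (hv g) i1
    simp only [Pi.smul_apply, smul_eq_mul] at h1 h2
    have h3 : μ g / φ (l g) ≠ 0 := div_ne_zero (hμ0 g) (hφl g)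
    rw [smul_div_field, h1, h2, mul_div_mul_left _ _ h3]
  · set P := IntermediateField.adjoin K₁
      (Set.range fun i : {i : τ // i ≠ i1} => v i.1 / v i1) with hP
    have hvP : ∀ i, v i / v i1 ∈ P := by
      intro i
      by_cases h1 : i = i1
      · rw [h1, div_self hi1]
        exact P.one_mem
      · exact IntermediateField.subset_adjoin _ _ ⟨⟨i, h1⟩, rfl⟩
    have hyP : ∀ i, y i / v i1 ∈ P := by
      intro i
      rw [← hSv]
      simp only [Matrix.mulVec, dotProduct, Matrix.map_apply]
      rw [Finset.sum_div]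
      refine sum_mem fun k _ => ?_
      rw [mul_div_assoc]
      exact P.mul_mem (P.algebraMap_mem (S i k)) (hvP k)
    intro i
    have e : y i = (y i / v i1) / (y i0 / v i1) := by
      rw [hy0]
      field_simp
    rw [e]
    exact P.div_mem (hyP i) (hyP i0)

end Triv

end Stb

end Pool.Agent.MP12f267
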