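import Mathlib
import Pool.Agent.Work.MP_12f267_stb.SideC

/-! One side of the stable birationality. -/

open TensorProduct Cardinal

namespace Pool.Agent.MP12f267

universe u

namespace Stb

section Main

variable {F L A ι τ K₀ E : Type u} [Field F] [Field L] [Algebra F L]
  [FiniteDimensional F L] [IsGalois F L] [Ring A] [Algebra F A] [FiniteDimensional F A]
  [Fintype ι] [DecidableEq ι] [Fintype τ] [DecidableEq τ]
  [Field K₀] [Algebra L K₀] [MulSemiringAction (L ≃ₐ[F] L) K₀] [GField (L ≃ₐ[F] L) L K₀]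
  [Field E] [Algebra K₀ E] [MulSemiringAction (L ≃ₐ[F] L) E] [GField (L ≃ₐ[F] L) K₀ E]
  [Algebra L E] [IsScalarTower L K₀ E] [GField (L ≃ₐ[F] L) L E] [Algebra F E]
  [IsScalarTower F L E]

/-- `E` is generated over `K₀` by a generic point of `M`, and `K₀` is generated over `L` by a
generic point of `N`, where the class of `N` is a power of the class of `M`. Then the fixed field
of `E` is the function field of `X_A × 𝔸^(d-1)`. -/
theorem side (hinf : InfFix (L ≃ₐ[F] L) L) [Nonempty ι] (M : PMod (L ≃ₐ[F] L) L ι)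
    (N : PMod (L ≃ₐ[F] L) L τ) (k : ℤ)
    (hN : Cohom (L ≃ₐ[F] L) L (fun g h => M.a g h ^ k) N.a) (hA : Nonempty (Model F L A M))
    (y : τ → K₀) (hy : N.Gen K₀ y) (x : ι → E) (hx : M.IsPt E x) (hgen : projField K₀ x = ⊤)
    (htr : Algebra.trdeg K₀ E + 1 = (Fintype.card ι : Cardinal)) :
    IsFunctionFieldTimes F A (fixedIF F L E) (Fintype.card τ - 1) := by
  classical
  -- normalise the points
  obtain ⟨j, hj⟩ := Function.ne_iff.mp hx.1
  simp only [Pi.zero_apply] at hj
  obtain ⟨w, hw, hwj, hwgen⟩ : ∃ w : ι → E, M.IsPt E w ∧ w j = 1 ∧ projField K₀ w = ⊤ :=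
    ⟨(x j)⁻¹ • x, hx.smul (inv_ne_zero hj), by
      simp only [Pi.smul_apply, smul_eq_mul]
      exact inv_mul_cancel₀ hj, by
      rw [projField_smul _ _ (inv_ne_zero hj), hgen]⟩
  clear hj hgen hx x
  obtain ⟨i0, hi0⟩ := Function.ne_iff.mp hy.1.1
  simp only [Pi.zero_apply] at hi0
  obtain ⟨z, hz, hz0⟩ : ∃ z : τ → K₀, N.Gen K₀ z ∧ z i0 = 1 :=
    ⟨(y i0)⁻¹ • y, hy.smul (inv_ne_zero hi0), by
      simp only [Pi.smul_apply, smul_eq_mul]
      exact inv_mul_cancel₀ hi0⟩
  clear hi0 hy y
  -- the field of the point of `M`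
  have hst : ∀ (g : L ≃ₐ[F] L) (z : E), z ∈ projField L w → g • z ∈ projField L w :=
    fun g z hz => M.projField_stable w hw.2 g z hz
  obtain ⟨w', hw', hw'gen, l, hl0, hl⟩ := gen_projField M w j hwj hw.2 (projField L w) rfl hst
  let K₁ : IntermediateField L E := projField L w
  let actK : MulSemiringAction (L ≃ₐ[F] L) K₁ := stabAct K₁ hst
  have gf1 : GField (L ≃ₐ[F] L) L K₁ := stabAct_gField K₁ hst
  have gf2 : GField (L ≃ₐ[F] L) K₁ E := stabAct_gField_top K₁ hst
  have hl' : ∀ g, ((M.P g).map (algebraMap L K₁)).mulVec (fun i => g • w' i) = l g • w' := hl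
  have hw'0 : w' ≠ 0 := by
    intro h
    have h1 := congrFun h j
    have h2 : (w' j : E) = 0 := congrArg Subtype.val h1
    rw [hw', hwj] at h2
    exact one_ne_zero h2
  -- the class of `N` is trivial over `K₁`
  obtain ⟨ν, hν0, hν⟩ := hN
  have hlM := M.pt_cocycle w' hw'0 l hl'
  let lN : (L ≃ₐ[F] L) → K₁ := fun g => l g ^ k * algebraMap L K₁ (ν g)
  have hlN0 : ∀ g, lN g ≠ 0 := fun g =>
    mul_ne_zero (zpow_ne_zero _ (hl0 g)) (by simpa using hν0 g)
  have hlN : ∀ g h, lN g * g • lN h = algebraMap L K₁ (N.a g h) * lN (g * h) := by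
    intro g h
    have h1 := congrArg (algebraMap L K₁) (hν g h)
    simp only [map_mul, map_zpow₀] at h1
    have h2 := congrArg (fun z => z ^ k) (hlM g h)
    simp only [mul_zpow] at h2
    show l g ^ k * algebraMap L K₁ (ν g) * g • (l h ^ k * algebraMap L K₁ (ν h)) =
      algebraMap L K₁ (N.a g h) * (l (g * h) ^ k * algebraMap L K₁ (ν (g * h)))
    rw [smul_mul', GField.smul_algebraMap, smul_zpow_field]
    linear_combination (algebraMap L K₁ (ν g) * algebraMap L K₁ (g • ν h)) * h2 -
      l (g * h) ^ k * h1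
  have hinf1 : InfFix (L ≃ₐ[F] L) K₁ := InfFix.map (K := K₁) hinf
  have hfaith : FaithfulSMul (L ≃ₐ[F] L) K₁ := faithful_of_gField (L ≃ₐ[F] L) L K₁
  -- the point of `N` in `E`
  let zE : τ → E := fun i => algebraMap K₀ E (z i)
  have hzE0 : zE i0 = 1 := by
    show algebraMap K₀ E (z i0) = 1
    rw [hz0, map_one]
  have hzE : ∀ g : L ≃ₐ[F] L, ∃ μ : E, μ ≠ 0 ∧
      ((N.P g).map (algebraMap L E)).mulVec (fun i => g • zE i) = μ • zE := by
    intro g
    obtain ⟨μ, hμ, h⟩ := hz.1.2 g
    exact ⟨algebraMap K₀ E μ, by simpa using hμ, pt_map N z g μ h⟩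
  obtain ⟨i1, t, ht, hyt⟩ := triv_params hinf1 N lN hlN0 hlN zE i0 hzE0 hzE
  -- the parameters generate `E` over `K₁`
  have hgent : IntermediateField.adjoin K₁ (Set.range t) = ⊤ := by
    set P := IntermediateField.adjoin K₁ (Set.range t) with hP
    have hLP : ∀ c : L, algebraMap L E c ∈ P := fun c => by
      have := P.algebraMap_mem (algebraMap L K₁ c)
      exact this
    have hK₀ : ∀ c : K₀, algebraMap K₀ E c ∈ P := by
      intro c
      have hc : c ∈ projField L z := by rw [hz.2.1]; exact IntermediateField.mem_top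
      unfold projField at hc
      induction hc using IntermediateField.adjoin_induction with
      | mem x hx =>
        obtain ⟨i, k, rfl⟩ := hx
        rw [map_div₀]
        exact P.div_mem (hyt i) (hyt k)
      | algebraMap x =>
        rw [← IsScalarTower.algebraMap_apply L K₀ E]
        exact hLP x
      | add x y _ _ hx hy => rw [map_add]; exact P.add_mem hx hy
      | inv x _ hx => rw [map_inv₀]; exact P.inv_mem hx
      | mul x y _ _ hx hy => rw [map_mul]; exact P.mul_mem hx hy
    have hwP : ∀ i, w i ∈ P := by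
      intro i
      have := P.algebraMap_mem (w' i)
      have e : algebraMap K₁ E (w' i) = w i := hw' i
      rwa [e] at this
    rw [eq_top_iff]
    intro c _
    have hc : c ∈ projField K₀ w := by rw [hwgen]; exact IntermediateField.mem_top
    unfold projField at hc
    induction hc using IntermediateField.adjoin_induction with
    | mem x hx =>
      obtain ⟨i, k, rfl⟩ := hx
      exact P.div_mem (hwP i) (hwP k)
    | algebraMap x => exact hK₀ x
    | add x y _ _ hx hy => exact P.add_mem (hx trivial) (hy trivial)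
    | inv x _ hx => exact P.inv_mem (hx trivial)
    | mul x y _ _ hx hy => exact P.mul_mem (hx trivial) (hy trivial)
  -- transcendence degrees
  have hcard : Fintype.card {i : τ // i ≠ i1} + 1 = Fintype.card τ := by
    rw [Fintype.card_subtype_compl, Fintype.card_subtype_eq]
    have : 0 < Fintype.card τ := Fintype.card_pos_iff.mpr ⟨i1⟩
    omega
  have ht1 : Algebra.trdeg L K₁ ≤ ((Finset.univ.erase j).card : ℕ) := by
    refine trdeg_le_card_of_gen (L := L) w' j ?_ _ ?_ hw'gen
    · intro h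
      have h2 : (w' j : E) = 0 := congrArg Subtype.val h
      rw [hw', hwj] at h2
      exact one_ne_zero h2
    · intro z hz
      left
      by_contra hne
      exact hz (Finset.mem_erase.mpr ⟨hne, Finset.mem_univ _⟩)
  have ht2 : Algebra.trdeg K₁ E ≤ (Fintype.card {i : τ // i ≠ i1} : ℕ) := by
    have h3 := trdeg_le_of_adjoin_eq_top (L := K₁) t hgent
    rwa [Cardinal.mk_fintype] at h3
  have htA : Algebra.trdeg L K₁ + Algebra.trdeg K₁ E = Algebra.trdeg L E :=
    trdeg_add_eq L K₁ (A := E)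
  have htB : Algebra.trdeg L K₀ + Algebra.trdeg K₀ E = Algebra.trdeg L E :=
    trdeg_add_eq L K₀ (A := E)
  have hcardι : (Finset.univ.erase j).card + 1 = Fintype.card ι := by
    rw [Finset.card_erase_add_one (Finset.mem_univ j), Finset.card_univ]
  have htz := hz.2.2
  obtain ⟨hfin1, hfin2⟩ : Algebra.trdeg L K₁ + 1 = (Fintype.card ι : Cardinal) ∧
      (Fintype.card {i : τ // i ≠ i1} : Cardinal) ≤ Algebra.trdeg K₁ E := by
    obtain ⟨a, ha⟩ := Cardinal.lt_aleph0.mp (lt_of_le_of_lt ht1 (Cardinal.natCast_lt_aleph0))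
    obtain ⟨b, hb⟩ := Cardinal.lt_aleph0.mp (lt_of_le_of_lt ht2 (Cardinal.natCast_lt_aleph0))
    have hlt1 : Algebra.trdeg L K₀ < Cardinal.aleph0 := by
      refine lt_of_le_of_lt ?_ (Cardinal.natCast_lt_aleph0 (n := Fintype.card τ))
      rw [← htz]
      exact self_le_add_right _ _
    have hlt2 : Algebra.trdeg K₀ E < Cardinal.aleph0 := by
      refine lt_of_le_of_lt ?_ (Cardinal.natCast_lt_aleph0 (n := Fintype.card ι))
      rw [← htr]
      exact self_le_add_right _ _
    obtain ⟨c, hc⟩ := Cardinal.lt_aleph0.mp hlt1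
    obtain ⟨e, he⟩ := Cardinal.lt_aleph0.mp hlt2
    rw [ha] at ht1 htA ⊢
    rw [hb] at ht2 htA ⊢
    rw [hc] at htz htB
    rw [he] at htr htB
    rw [← htB] at htA
    have h1 : a ≤ (Finset.univ.erase j).card := by exact_mod_cast ht1
    have h2 : b ≤ Fintype.card {i : τ // i ≠ i1} := by exact_mod_cast ht2
    have h3 : a + b = c + e := by exact_mod_cast htA
    have h4 : c + 1 = Fintype.card τ := by exact_mod_cast htz
    have h5 : e + 1 = Fintype.card ι := by exact_mod_cast htr
    constructor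
    · have : a + 1 = Fintype.card ι := by omega
      exact_mod_cast this
    · have : Fintype.card {i : τ // i ≠ i1} ≤ b := by omega
      exact_mod_cast this
  have hind : AlgebraicIndependent K₁ t :=
    algInd_of_adjoin_eq_top t hgent (by rw [Cardinal.mk_fintype]; exact hfin2)
  -- reindexing
  have hcard2 : Fintype.card {i : τ // i ≠ i1} = Fintype.card τ - 1 := by omega
  let e : Fin (Fintype.card τ - 1) ≃ {i : τ // i ≠ i1} := (Fintype.equivFinOfCardEq hcard2).symm
  refine times_of K₁ hst (Fintype.card τ - 1) (t ∘ e) (fun g i => ht g (e i))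
    (hind.comp e e.injective) ?_ ?_
  · rw [Set.range_comp, e.surjective.range_eq, Set.image_univ, hgent]
  · exact stmt_FIN stmt_DESC F L A ι K₁ M w' hA ⟨⟨hw'0, fun g => ⟨l g, hl0 g, hl' g⟩⟩,
      hw'gen, hfin1⟩

end Main

end Stb

end Pool.Agent.MP12f267
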