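import Mathlib
import Pool.Agent.Work.MP_12f267_stb.SideD
import Pool.Agent.Work.MP_12f267_ag.AsmP

/-! The core of the stable theorem: going to the function field of `X_C`. -/

open TensorProduct Cardinal

namespace Pool.Agent.MP12f267

universe u

namespace Stb

section BaseMono

variable {G L X : Type u} [Group G] [Field L] [MulSemiringAction G L] [MulAction G X]

/-- Base change of a monomial module. -/
def monoBase (c : Mono G L X) (K : Type u) [Field K] [Algebra L K] [MulSemiringAction G K]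
    [GField G L K] : Mono G K X where
  c g x := algebraMap L K (c.c g x)
  a g h := algebraMap L K (c.a g h)
  c_ne g x := by simpa using c.c_ne g x
  a_ne g h := by simpa using c.a_ne g h
  mul g h x := by
    rw [GField.smul_algebraMap, ← map_mul, ← map_mul, c.mul]

end BaseMono

section Pt

variable {G L τ K₀ : Type u} [Group G] [Field L] [MulSemiringAction G L] [Fintype τ]
  [DecidableEq τ] [Field K₀] [Algebra L K₀] [MulSemiringAction G K₀] [GField G L K₀]

/-- The class of a module is trivial over a field with a point. -/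
lemma cohom_one_of_pt (N : PMod G L τ) (y : τ → K₀) (hy : N.IsPt K₀ y) :
    Cohom G K₀ (fun _ _ => 1) (fun g h => algebraMap L K₀ (N.a g h)) := by
  obtain ⟨hy0, hy1⟩ := hy
  choose μ hμ0 hμ using hy1
  refine ⟨μ, hμ0, fun g h => ?_⟩
  rw [one_mul]
  exact (N.pt_cocycle y hy0 μ hμ g h).symm

end Pt

section Core

variable {F L A B ι κ τ : Type u} [Field F] [Field L] [Algebra F L]
  [FiniteDimensional F L] [IsGalois F L] [Ring A] [Algebra F A] [FiniteDimensional F A]
  [Ring B] [Algebra F B] [FiniteDimensional F B]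
  [Fintype ι] [DecidableEq ι] [Fintype κ] [DecidableEq κ] [Fintype τ] [DecidableEq τ]

theorem core_stable (hPRODP : Stmt_PRODP.{u}) (hEX : Stmt_EX.{u})
    (hinf : InfFix (L ≃ₐ[F] L) L) [Nonempty ι] [Nonempty κ] [Nonempty τ]
    (M : PMod (L ≃ₐ[F] L) L ι) (M' : PMod (L ≃ₐ[F] L) L κ) (N : PMod (L ≃ₐ[F] L) L τ)
    (hA : Nonempty (Model F L A M)) (hB : Nonempty (Model F L B M')) (n r s t : ℕ)
    (hr : Cohom (L ≃ₐ[F] L) L (fun g h => M.a g h ^ (r : ℤ)) M'.a)
    (hs : Cohom (L ≃ₐ[F] L) L (fun g h => M'.a g h ^ (s : ℤ)) M.a)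
    (hn : Cohom (L ≃ₐ[F] L) L (fun _ _ => 1) (fun g h => M.a g h ^ (n : ℤ)))
    (hN : Cohom (L ≃ₐ[F] L) L (fun g h => M.a g h ^ (t : ℤ)) N.a)
    (J : Type) [Fintype J] (X : J → Type u) [∀ j, MulAction (L ≃ₐ[F] L) (X j)]
    [∀ j, Finite (X j)] [∀ j, Nonempty (X j)] (c : ∀ j, Mono (L ≃ₐ[F] L) L (X j))
    (k : J → ℤ) (m : J → ℕ)
    (hk : ∀ j, Cohom (L ≃ₐ[F] L) L (fun g h => M.a g h ^ k j) (c j).a)
    (hkm : ∀ j, ((Nat.gcd n t : ℕ) : ℤ) ∣ k j * (m j : ℤ))
    (hgood : ∀ j, GoodFor r (m j) (Nat.card (X j)))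
    (hpair : ∀ i j, i ≠ j → (Nat.card (X i)).Coprime (Nat.card (X j)))
    (hι : Fintype.card ι = ∏ j, Nat.card (X j))
    (hκ : Fintype.card κ = ∏ j, Nat.card (X j))
    (hM : Cohom (L ≃ₐ[F] L) L M.a (fun g h => ∏ j, (c j).a g h)) :
    BirationalTimes F A B (Fintype.card τ - 1) := by
  classical
  obtain ⟨K₀, _, _, _, _, y, hy⟩ := hEX (L ≃ₐ[F] L) L τ N
  let MK : PMod (L ≃ₐ[F] L) K₀ ι := M.infl (MonoidHom.id _) (algebraMap L K₀)
    (fun g z => GField.smul_algebraMap g z)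
  let MK' : PMod (L ≃ₐ[F] L) K₀ κ := M'.infl (MonoidHom.id _) (algebraMap L K₀)
    (fun g z => GField.smul_algebraMap g z)
  obtain ⟨E, _, _, _, _, x, hx⟩ := hEX (L ≃ₐ[F] L) K₀ ι MK
  have hinf0 : InfFix (L ≃ₐ[F] L) K₀ := InfFix.map (K := K₀) hinf
  have hfaith : FaithfulSMul (L ≃ₐ[F] L) K₀ := faithful_of_gField (L ≃ₐ[F] L) L K₀
  -- the classes over `K₀`
  have hN1 := cohom_one_of_pt N y hy.1
  have ht1 : Cohom (L ≃ₐ[F] L) K₀ (fun _ _ => 1)
      (fun g h => algebraMap L K₀ (M.a g h) ^ (t : ℤ)) := by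
    refine hN1.trans ((hN.map (K := K₀)).symm.trans (Cohom.of_eq fun g h => ?_))
    rw [map_zpow₀]
  have hn1 : Cohom (L ≃ₐ[F] L) K₀ (fun _ _ => 1)
      (fun g h => algebraMap L K₀ (M.a g h) ^ (n : ℤ)) := by
    refine Cohom.trans (Cohom.of_eq fun g h => ?_)
      ((hn.map (K := K₀)).trans (Cohom.of_eq fun g h => ?_))
    · rw [map_one]
    · rw [map_zpow₀]
  have hMne : ∀ g h, algebraMap L K₀ (M.a g h) ≠ 0 := fun g h => by simpa using M.a_ne g h
  have hg1 : Cohom (L ≃ₐ[F] L) K₀ (fun _ _ => 1)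
      (fun g h => algebraMap L K₀ (M.a g h) ^ ((Nat.gcd n t : ℕ) : ℤ)) := by
    rw [Nat.gcd_eq_gcd_ab]
    exact Cohom.one_zpow_comb hMne hn1 ht1 _ _
  have hbir : MK.BirTo MK' := by
    apply core_goodP hPRODP (L ≃ₐ[F] L) K₀ hinf0 J X (fun j => monoBase (c j) K₀) r m
    · intro j
      have h1 := Cohom.zpow_congr (r := 0) (s := k j * (m j : ℤ)) hMne hg1
        (by rw [sub_zero]; exact hkm j)
      have h2 := ((hk j).map (K := K₀)).zpow (m j : ℤ)
      refine Cohom.trans (Cohom.of_eq fun g h => ?_)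
        (h1.trans (Cohom.trans (Cohom.of_eq fun g h => ?_) h2))
      · rw [zpow_zero]
      · rw [map_zpow₀, zpow_mul]
    · exact hgood
    · exact hpair
    · exact hι
    · exact hκ
    · refine (hM.map (K := K₀)).trans (Cohom.of_eq fun g h => ?_)
      exact map_prod (algebraMap L K₀) (fun j => (c j).a g h) Finset.univ
    · refine Cohom.trans (Cohom.of_eq fun g h => ?_) (hr.map (K := K₀))
      rw [map_zpow₀]
      rfl
  obtain ⟨x', hx'⟩ := hbir E x hx
  letI algLE : Algebra L E := ((algebraMap K₀ E).comp (algebraMap L K₀)).toAlgebra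
  have st1 : IsScalarTower L K₀ E := IsScalarTower.of_algebraMap_eq fun _ => rfl
  have gf : GField (L ≃ₐ[F] L) L E := ⟨fun g l => by
    rw [IsScalarTower.algebraMap_apply L K₀ E, GField.smul_algebraMap, GField.smul_algebraMap,
      ← IsScalarTower.algebraMap_apply L K₀ E]⟩
  letI algFE : Algebra F E := ((algebraMap L E).comp (algebraMap F L)).toAlgebra
  have st2 : IsScalarTower F L E := IsScalarTower.of_algebraMap_eq fun _ => rfl
  have hpt : M.IsPt E x := hx.1
  have hpt' : M'.IsPt E x' := hx'.1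
  refine ⟨fixedIF F L E, inferInstance, inferInstance, ?_, ?_⟩
  · exact side hinf M N (t : ℤ) hN hA y hy x hpt hx.2.1 hx.2.2
  · refine side hinf M' N ((s : ℤ) * (t : ℤ)) ?_ hB y hy x' hpt' hx'.2.1 hx'.2.2
    refine Cohom.trans (Cohom.of_eq fun g h => ?_) ((hs.zpow (t : ℤ)).trans hN)
    rw [zpow_mul]

end Core

end Stb

end Pool.Agent.MP12f267
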