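import Mathlib
import Pool.Agent.Work.MP_12f267_ag.PRIM
import Pool.Agent.Work.MP_12f267_ag.DIM
import Pool.Agent.Work.MP_12f267_ag.SUB
import Pool.Agent.Work.MP_12f267_ag.DENS

/-! The index of a power of a class: modules of subsets. -/

open TensorProduct Cardinal Pointwise

namespace Pool.Agent.MP12f267

universe u

namespace Stb

/-- The subsets of `X` with `t` elements. -/
def SubsT (X : Type u) (t : ℕ) : Type u := {S : Finset X // S.card = t}

section

variable {G : Type u} {L : Type u} {X : Type u} [Group G] [Field L] [MulSemiringAction G L]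
  [MulAction G X]

open Classical in
noncomputable instance (t : ℕ) : MulAction G (SubsT X t) where
  smul g S := ⟨S.1.map (MulAction.toPerm g).toEmbedding, by rw [Finset.card_map]; exact S.2⟩
  one_smul S := Subtype.ext (by
    show S.1.map (MulAction.toPerm (1 : G)).toEmbedding = S.1
    ext x
    simp)
  mul_smul g h S := Subtype.ext (by
    show S.1.map (MulAction.toPerm (g * h)).toEmbedding =
      (S.1.map (MulAction.toPerm h).toEmbedding).map (MulAction.toPerm g).toEmbedding
    rw [Finset.map_map]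
    congr 1
    ext x
    simp [mul_smul])

lemma smul_subsT (t : ℕ) (g : G) (S : SubsT X t) :
    (g • S).1 = S.1.map (MulAction.toPerm g).toEmbedding := rfl

/-- The exterior power of a monomial module. -/
noncomputable def subsMono (c : Mono G L X) (t : ℕ) : Mono G L (SubsT X t) where
  c g S := ∏ x ∈ S.1, c.c g x
  a g h := c.a g h ^ t
  c_ne g S := Finset.prod_ne_zero_iff.mpr fun x _ => c.c_ne g x
  a_ne g h := pow_ne_zero _ (c.a_ne g h)
  mul g h S := by
    have e : g • ∏ x ∈ S.1, c.c h x = ∏ x ∈ S.1, g • c.c h x :=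
      map_prod (MulSemiringAction.toRingHom G L g) _ _
    rw [e, smul_subsT, Finset.prod_map, ← Finset.prod_mul_distrib]
    have h1 : ∀ x ∈ S.1, c.c g ((MulAction.toPerm h).toEmbedding x) * g • c.c h x =
        c.a g h * c.c (g * h) x := fun x _ => c.mul g h x
    rw [Finset.prod_congr rfl h1, Finset.prod_mul_distrib, Finset.prod_const, S.2]

lemma hasMod_mult {b : G → G → L} {q : ℕ} (h : HasMod G L b q) (j : ℕ) (hj : 0 < j) :
    HasMod G L b (q * j) := by
  obtain ⟨j', rfl⟩ := Nat.exists_eq_succ_of_ne_zero hj.ne'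
  clear hj
  induction j' with
  | zero => simpa using h
  | succ j ih =>
    have := (stmt_DIM G L).2.2.1 b _ _ ih h
    have h2 : q * (j + 1 + 1) = q * (j + 1) + q := by ring
    rwa [← h2] at this

lemma card_subsT [Finite X] (t : ℕ) : Nat.card (SubsT X t) = (Nat.card X).choose t := by
  classical
  have := Fintype.ofFinite X
  rw [Nat.card_eq_fintype_card (α := X)]
  unfold SubsT
  rw [Nat.card_eq_fintype_card, Fintype.card_finset_len]

/-- The index of the `p^f`-th power of a class on a set of size `p^e`. -/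
theorem index_pp [Finite G] [FaithfulSMul G L] (hinf : InfFix G L) [Finite X] [Nonempty X]
    (c : Mono G L X) (p e f : ℕ) (hp : p.Prime) (hf : f ≤ e) (hX : Nat.card X = p ^ e) :
    HasMod G L (fun g h => c.a g h ^ ((p ^ f : ℕ) : ℤ)) (p ^ (e - f)) := by
  have hfin : Finite (SubsT X (p ^ f)) := by
    unfold SubsT
    infer_instance
  have h1 := (stmt_DIMM G L (SubsT X (p ^ f)) (subsMono c (p ^ f))).1
  rw [card_subsT, hX] at h1
  have h1' : HasMod G L (fun g h => c.a g h ^ ((p ^ f : ℕ) : ℤ)) ((p ^ e).choose (p ^ f)) :=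
    hasMod_of_cohom h1 (Cohom.of_eq fun g h => (zpow_natCast _ _).symm)
  have h2 := hasMod_pow stmt_DIM (stmt_DIMM G L X c).1 (p ^ f)
  rw [hX] at h2
  have hle : p ^ f ≤ p ^ e := Nat.pow_le_pow_right hp.pos hf
  obtain ⟨q, hq, hbq, hqd⟩ := exists_gen stmt_DIM (stmt_SUB stmt_DENS) hinf
    (b := fun g h => c.a g h ^ ((p ^ f : ℕ) : ℤ)) (fun g h => zpow_ne_zero _ (c.a_ne g h))
    (pow_pos (pow_pos hp.pos e) _) h2
  have hq1 := hqd _ h1'
  have hq2 := hqd _ h2
  rw [← pow_mul] at hq2
  obtain ⟨i, -, rfl⟩ := (Nat.dvd_prime_pow hp).mp hq2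
  have hch : (p ^ e).choose (p ^ f) ≠ 0 := (Nat.choose_pos hle).ne'
  have h3 : i ≤ ((p ^ e).choose (p ^ f)).factorization p :=
    (hp.pow_dvd_iff_le_factorization hch).mp hq1
  have h4 := Nat.factorization_choose_prime_pow_add_factorization hp hle (pow_pos hp.pos f).ne'
  rw [hp.factorization_pow, Finsupp.single_eq_same] at h4
  have h5 : i ≤ e - f := by omega
  obtain ⟨d, hd⟩ := pow_dvd_pow p h5
  rw [hd]
  refine hasMod_mult hbq d (Nat.pos_of_ne_zero ?_)
  rintro rfl
  rw [Nat.mul_zero] at hd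
  exact (pow_pos hp.pos _).ne' hd

/-- The index of the `t`-th power of a class on a set of size `p^e`. -/
theorem index_pt [Finite G] [FaithfulSMul G L] (hinf : InfFix G L) [Finite X] [Nonempty X]
    (c : Mono G L X) (p e f t : ℕ) (hp : p.Prime) (hf : f ≤ e) (hX : Nat.card X = p ^ e)
    (ht : p ^ f ∣ t) :
    HasMod G L (fun g h => c.a g h ^ (t : ℤ)) (p ^ (e - f)) := by
  obtain ⟨t', rfl⟩ := ht
  refine hasMod_of_cohom (index_pp hinf (c.zpow (t' : ℤ)) p e f hp hf hX)
    (Cohom.of_eq fun g h => ?_)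
  show (c.a g h ^ (t' : ℤ)) ^ ((p ^ f : ℕ) : ℤ) = c.a g h ^ ((p ^ f * t' : ℕ) : ℤ)
  rw [← zpow_mul, Nat.cast_mul, mul_comm]

/-- Products of classes. -/
lemma hasMod_prod {J : Type} (S : Finset J) (a : J → G → G → L) (d : J → ℕ)
    (h : ∀ j ∈ S, HasMod G L (a j) (d j)) :
    HasMod G L (fun g h => ∏ j ∈ S, a j g h) (∏ j ∈ S, d j) := by
  classical
  induction S using Finset.induction_on with
  | empty =>
    refine hasMod_of_cohom hasMod_one (Cohom.of_eq fun g h => ?_)
    simp
  | insert j S hj ih =>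
    rw [Finset.prod_insert hj]
    refine hasMod_of_cohom ((stmt_DIM G L).1 _ _ _ _ (h j (Finset.mem_insert_self j S))
      (ih fun i hi => h i (Finset.mem_insert_of_mem hi))) (Cohom.of_eq fun g k => ?_)
    rw [Finset.prod_insert hj]

end

end Stb

end Pool.Agent.MP12f267
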