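import Mathlib
import Pool.Agent.Work.MP_12f267_stb.Core
import Pool.Agent.Work.MP_12f267_stb.Index
import Pool.Agent.Work.MP_12f267_ag.Final

/-! Assembly of the stable theorem. -/

open TensorProduct

namespace Pool.Agent.MP12f267

universe u

namespace Stb

theorem fin_PRODP : Stmt_PRODP.{u} :=
  stmt_PRODP (stmt_GDP stmt_INV (stmt_DBL stmt_DENS) stmt_UNIQM) stmt_FIB stmt_UNIQM stmt_DIMM

lemma goodFor_of_mult {r t : ℕ} (ht : 0 < t) (h : GoodMultiplier r t) (p e : ℕ) (hp : p.Prime) :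
    GoodFor r (p ^ t.factorization p) (p ^ e) := by
  obtain ⟨j, hj0, hj⟩ := h p (t.factorization p) hp (Nat.ordProj_dvd t p)
    (Nat.pow_succ_factorization_not_dvd ht.ne' hp)
  refine ⟨j, fun hev => hj0 ?_, hj⟩
  have h2 : 2 ∣ p ^ e := even_iff_two_dvd.mp hev
  exact ((Nat.prime_dvd_prime_iff_eq Nat.prime_two hp).mp
    (Nat.prime_two.dvd_of_dvd_pow h2)).symm

lemma goodMult_of_period {r t : ℕ} (h : GoodPeriod t) (hr : r.Coprime t) :
    GoodMultiplier r t := by
  intro p f hp hf hf'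
  rcases Nat.eq_zero_or_pos f with hf0 | hf0
  · subst hf0
    exact ⟨0, fun _ => rfl, Or.inl (by simp)⟩
  have hpt : p ∣ t := (dvd_pow_self p hf0.ne').trans hf
  have hrp : ¬ p ∣ r := by
    intro hpr
    have := Nat.dvd_gcd hpr hpt
    rw [hr] at this
    exact hp.one_lt.ne' (Nat.eq_one_of_dvd_one this)
  obtain ⟨j, hj0, hj⟩ := goodFor_part r p f (p ^ 1) hp hrp ⟨1, rfl⟩ (h p f hp hf hf')
  refine ⟨j, fun h2 => hj0 ?_, hj⟩
  rw [h2]
  decide

lemma prod_div {n t : ℕ} (hn : 0 < n) (htn : t ∣ n) :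
    ∏ j : {p : ℕ // p ∈ n.primeFactors}, (j : ℕ) ^ (n.factorization j - t.factorization j) =
      n / t := by
  have ht : 0 < t := Nat.pos_of_dvd_of_pos htn hn
  have hle : ∀ p, t.factorization p ≤ n.factorization p :=
    fun p => (Nat.factorization_le_iff_dvd ht.ne' hn.ne').mpr htn p
  have h1 : ∏ p ∈ n.primeFactors, p ^ n.factorization p = n := by
    have h := Nat.prod_factorization_pow_eq_self hn.ne'
    rwa [Finsupp.prod, Nat.support_factorization] at h
  have h2 : ∏ p ∈ n.primeFactors, p ^ t.factorization p = t := by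
    have h := Nat.prod_factorization_pow_eq_self ht.ne'
    rw [Finsupp.prod, Nat.support_factorization] at h
    conv_rhs => rw [← h]
    symm
    apply Finset.prod_subset (Nat.primeFactors_mono htn hn.ne')
    intro p _ hp
    rw [← Nat.support_factorization, Finsupp.notMem_support_iff] at hp
    rw [hp, pow_zero]
  have h3 : (∏ p ∈ n.primeFactors, p ^ (n.factorization p - t.factorization p)) * t = n := by
    have h5 : (∏ p ∈ n.primeFactors, p ^ (n.factorization p - t.factorization p)) *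
        ∏ p ∈ n.primeFactors, p ^ t.factorization p = ∏ p ∈ n.primeFactors, p ^ n.factorization p := by
      rw [← Finset.prod_mul_distrib]
      refine Finset.prod_congr rfl fun p _ => ?_
      rw [← pow_add, Nat.sub_add_cancel (hle p)]
    rwa [h2, h1] at h5
  have h4 : ∏ p ∈ n.primeFactors, p ^ (n.factorization p - t.factorization p) = n / t := by
    rw [eq_comm]
    exact Nat.div_eq_of_eq_mul_left ht h3.symm
  rw [← h4]
  exact Finset.prod_coe_sort n.primeFactors
    (fun p => p ^ (n.factorization p - t.factorization p))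

theorem main_infinite (F A B C : Type u) [Field F] [Infinite F]
    [Ring A] [Algebra F A] [Algebra.IsCentral F A] [IsSimpleRing A] [FiniteDimensional F A]
    [Ring B] [Algebra F B] [Algebra.IsCentral F B] [IsSimpleRing B] [FiniteDimensional F B]
    [Ring C] [Algebra F C] [Algebra.IsCentral F C] [IsSimpleRing C] [FiniteDimensional F C]
    (n d r₀ s t : ℕ) (hA : Module.finrank F A = n ^ 2) (hB : Module.finrank F B = n ^ 2)
    (hC : Module.finrank F C = d ^ 2) (hr₀ : IsBrauerMultiple F A B r₀)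
    (hs : IsBrauerMultiple F B A s) (ht : 0 < t) (hgood₀ : GoodPeriod t ∨ GoodMultiplier r₀ t) :
    (t ∣ n → BirationalTimes F A B (n / t - 1)) ∧
      (IsBrauerMultiple F A C t → BirationalTimes F A B (d - 1)) := by
  classical
  have hSUB : Stmt_SUB.{u} := stmt_SUB stmt_DENS
  have hn : 0 < n := deg_pos hA
  have hd : 0 < d := deg_pos hC
  obtain ⟨fA, hfA, hfA'⟩ := stmt_SEP F A n hA
  obtain ⟨fB, hfB, hfB'⟩ := stmt_SEP F B n hB
  obtain ⟨fC, hfC, hfC'⟩ := stmt_SEP F C d hC
  obtain ⟨L₀, _, _, _, _, -, -, hsplit⟩ := stmt_ENLB F F (Fin 3)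
    ![minpoly F fA, minpoly F fB, minpoly F fC] (fun j => by fin_cases j <;> simp [hfA, hfB, hfC])
  have hsA : ((minpoly F fA).map (algebraMap F L₀)).Splits := hsplit 0
  have hsB : ((minpoly F fB).map (algebraMap F L₀)).Splits := hsplit 1
  have hsC : ((minpoly F fC).map (algebraMap F L₀)).Splits := hsplit 2
  have := finite_roots F L₀ (hfA.ne_zero)
  have := finite_roots F L₀ (hfB.ne_zero)
  have := finite_roots F L₀ (hfC.ne_zero)
  have := Fintype.ofFinite (Roots F L₀ (minpoly F fA))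
  have := Fintype.ofFinite (Roots F L₀ (minpoly F fB))
  have := Fintype.ofFinite (Roots F L₀ (minpoly F fC))
  obtain ⟨cA, hmA⟩ := stmt_MODEL stmt_SIMPLE F A L₀ n fA hn hA hfA hfA' hsA
  obtain ⟨cB, hmB⟩ := stmt_MODEL stmt_SIMPLE F B L₀ n fB hn hB hfB hfB' hsB
  obtain ⟨cC, hmC⟩ := stmt_MODEL stmt_SIMPLE F C L₀ d fC hd hC hfC hfC' hsC
  have hcA := Model.card_eq hmA hA
  have hcB := Model.card_eq hmB hB
  have hcC := Model.card_eq hmC hC
  have : Nonempty (Roots F L₀ (minpoly F fA)) := Fintype.card_pos_iff.mp (by omega)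
  have : Nonempty (Roots F L₀ (minpoly F fB)) := Fintype.card_pos_iff.mp (by omega)
  have : Nonempty (Roots F L₀ (minpoly F fC)) := Fintype.card_pos_iff.mp (by omega)
  have hab₀ := stmt_BRAUER F L₀ A B _ _ cA.toPMod cB.toPMod r₀ hmA hmB hr₀
  have hba := stmt_BRAUER F L₀ B A _ _ cB.toPMod cA.toPMod s hmB hmA hs
  have hper := (stmt_DIMM (L₀ ≃ₐ[F] L₀) L₀ _ cA).2
  rw [Nat.card_eq_fintype_card, hcA] at hper
  -- a good exponent
  obtain ⟨r, hgood, hab⟩ : ∃ r : ℕ, GoodMultiplier r t ∧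
      Cohom (L₀ ≃ₐ[F] L₀) L₀ (fun g h => cA.a g h ^ (r : ℤ)) cB.a := by
    rcases hgood₀ with hg | hg
    · have hper2 : Cohom (L₀ ≃ₐ[F] L₀) L₀ (fun _ _ => 1)
          (fun g h => cA.a g h ^ ((n * t : ℕ) : ℤ)) := by
        refine Cohom.trans (Cohom.of_eq fun g h => ?_) ((hper.zpow (t : ℤ)).trans
          (Cohom.of_eq fun g h => ?_))
        · rw [one_zpow]
        · rw [← zpow_mul, Nat.cast_mul]
      obtain ⟨r, hr, hab⟩ := stmt_ORD (L₀ ≃ₐ[F] L₀) L₀ cA.a cB.a r₀ s (n * t) cA.a_ne cB.a_ne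
        (Nat.mul_pos hn ht) hab₀ hba hper2
      exact ⟨r, goodMult_of_period hg (Nat.Coprime.coprime_mul_left_right hr), hab⟩
    · exact ⟨r₀, hg, hab₀⟩
  have hinf₀ : InfFix (L₀ ≃ₐ[F] L₀) L₀ := infFix_gal F L₀
  -- primary modules
  let J : Type := {p : ℕ // p ∈ n.primeFactors}
  have hJp : ∀ j : J, (j : ℕ).Prime := fun j => Nat.prime_of_mem_primeFactors j.2
  have hmod : ∀ j : J, ∃ k : ℤ, ((((j : ℕ) ^ n.factorization j : ℕ)) : ℤ) ∣ k - 1 ∧
      ((n / (j : ℕ) ^ n.factorization j : ℕ) : ℤ) ∣ k ∧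
      HasMod (L₀ ≃ₐ[F] L₀) L₀ (fun g h => cA.a g h ^ k) ((j : ℕ) ^ n.factorization j) := by
    intro j
    obtain ⟨k, hk1, hk2⟩ := exists_exponent n j hn (hJp j)
    refine ⟨k, hk1, hk2, ?_⟩
    have hdvd : (j : ℕ) ^ n.factorization j * (n / (j : ℕ) ^ n.factorization j) = n :=
      Nat.mul_div_cancel' (Nat.ordProj_dvd n j)
    have hH := (stmt_DIMM (L₀ ≃ₐ[F] L₀) L₀ _ cA).1
    rw [Nat.card_eq_fintype_card, hcA, ← hdvd] at hH
    refine stmt_PRIM stmt_DIM hSUB (L₀ ≃ₐ[F] L₀) L₀ cA.a j (n.factorization j)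
      (n / (j : ℕ) ^ n.factorization j) k hinf₀ cA.a_ne (hJp j) ?_ ?_ hH hk1 hk2
    · exact Nat.not_dvd_ordCompl (hJp j) hn.ne'
    · exact Nat.ordCompl_pos _ hn.ne'
  choose k hk1 hk2 hkM using hmod
  choose ι' hι'1 hι'2 M' hM'card hM'coh using hkM
  have hne' : ∀ j : J, Nonempty (ι' j) := fun j => Fintype.card_pos_iff.mp (by
    rw [hM'card]; exact pow_pos (hJp j).pos _)
  have hEN : ∀ j : J, ∃ χ : Polynomial F, χ.Separable ∧
      ∀ (L : Type u) [Field L] [Algebra F L] [FiniteDimensional F L] [IsGalois F L]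
        [Algebra L₀ L] [IsScalarTower F L₀ L], (χ.map (algebraMap F L)).Splits →
        ∃ (X : Type u) (_ : MulAction (L ≃ₐ[F] L) X) (_ : Finite X)
          (c : Mono (L ≃ₐ[F] L) L X), Nat.card X = Fintype.card (ι' j) ∧
            Cohom (L ≃ₐ[F] L) L ((M' j).inflGal L).a c.a := by
    intro j
    have := hne' j
    exact stmt_ENLA F L₀ (ι' j) (M' j)
  choose χ hχ hχ2 using hEN
  obtain ⟨L, _, _, _, _, _, _, hsp⟩ := stmt_ENLB F L₀ J χ hχ
  have hX : ∀ j : J, ∃ (X : Type u) (_ : MulAction (L ≃ₐ[F] L) X) (_ : Finite X)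
          (c : Mono (L ≃ₐ[F] L) L X), Nat.card X = Fintype.card (ι' j) ∧
            Cohom (L ≃ₐ[F] L) L ((M' j).inflGal L).a c.a := fun j => hχ2 j L (hsp j)
  choose X hXact hXfin c hXcard hXcoh using hX
  have hXcard2 : ∀ j, Nat.card (X j) = (j : ℕ) ^ n.factorization j := fun j => by
    rw [hXcard, hM'card]
  have hXne : ∀ j, Nonempty (X j) := fun j => by
    have : 0 < Nat.card (X j) := by rw [hXcard2]; exact pow_pos (hJp j).pos _
    exact (Nat.card_pos_iff.mp this).1
  have hprod : ∏ j : J, (j : ℕ) ^ n.factorization j = n := by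
    have h1 := Nat.prod_factorization_pow_eq_self hn.ne'
    rw [Finsupp.prod, Nat.support_factorization] at h1
    conv_rhs => rw [← h1]
    exact Finset.prod_coe_sort n.primeFactors (fun p => p ^ n.factorization p)
  have hinf : InfFix (L ≃ₐ[F] L) L := infFix_gal F L
  have hmA' := stmt_MINF F L₀ L A _ cA.toPMod hmA
  have hmB' := stmt_MINF F L₀ L B _ cB.toPMod hmB
  have hmC' := stmt_MINF F L₀ L C _ cC.toPMod hmC
  -- the sum of the exponents is 1 modulo n
  have hksum : (n : ℤ) ∣ (∑ j, k j) - 1 := by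
    have h1 : ∀ j : J, (((j : ℕ) ^ n.factorization j : ℕ) : ℤ) ∣ (∑ i, k i) - 1 := by
      intro j
      rw [← Finset.add_sum_erase _ _ (Finset.mem_univ j)]
      have h2 : (((j : ℕ) ^ n.factorization j : ℕ) : ℤ) ∣ ∑ i ∈ Finset.univ.erase j, k i := by
        apply Finset.dvd_sum
        intro i hi
        refine dvd_trans ?_ (hk2 i)
        have hij : (j : ℕ) ≠ (i : ℕ) := fun h => (Finset.ne_of_mem_erase hi) (Subtype.ext h.symm)
        have h3 : Nat.Coprime ((j : ℕ) ^ n.factorization j) ((i : ℕ) ^ n.factorization i) :=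
          Nat.Coprime.pow _ _ ((Nat.coprime_primes (hJp j) (hJp i)).mpr hij)
        have h4 : (j : ℕ) ^ n.factorization j ∣ n := Nat.ordProj_dvd n j
        have h5 : (i : ℕ) ^ n.factorization i * (n / (i : ℕ) ^ n.factorization i) = n :=
          Nat.mul_div_cancel' (Nat.ordProj_dvd n i)
        have h7 : (j : ℕ) ^ n.factorization j ∣
            (i : ℕ) ^ n.factorization i * (n / (i : ℕ) ^ n.factorization i) := by
          rw [h5]
          exact h4
        exact Int.natCast_dvd_natCast.mpr (h3.dvd_of_dvd_mul_left h7)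
      have h6 := dvd_add (hk1 j) h2
      have e : k j - 1 + ∑ i ∈ Finset.univ.erase j, k i =
          k j + ∑ i ∈ Finset.univ.erase j, k i - 1 := by ring
      rwa [e] at h6
    have hprodZ : (n : ℤ) = ∏ j : J, (((j : ℕ) ^ n.factorization j : ℕ) : ℤ) := by
      rw [← Nat.cast_prod]
      exact congrArg Nat.cast hprod.symm
    refine (dvd_of_eq hprodZ).trans ?_
    apply Finset.prod_dvd_of_coprime
    · intro i _ j _ hij
      apply Nat.isCoprime_iff_coprime.mpr
      exact Nat.Coprime.pow _ _ ((Nat.coprime_primes (hJp i) (hJp j)).mpr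
        fun h => hij (Subtype.ext h))
    · intro j _
      exact h1 j
  have hperL : Cohom (L ≃ₐ[F] L) L (fun _ _ => 1)
      (fun g h => inflC L cA.a g h ^ (n : ℤ)) := by
    refine Cohom.trans (Cohom.of_eq fun g h => ?_)
      ((hper.infl (L := L)).trans (Cohom.of_eq fun g h => ?_))
    · unfold inflC; simp
    · unfold inflC; rw [map_zpow₀]
  have hneA : ∀ g h, inflC L cA.a g h ≠ 0 := fun g h => by
    unfold inflC
    simpa using cA.a_ne _ _
  have h1 : ∀ j : J, Cohom (L ≃ₐ[F] L) L (fun g h => inflC L cA.a g h ^ k j) (c j).a := by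
    intro j
    refine Cohom.trans (Cohom.of_eq fun g h => ?_)
      (((hM'coh j).symm.infl (L := L)).trans (hXcoh j))
    unfold inflC
    rw [map_zpow₀]
  have hMprod : Cohom (L ≃ₐ[F] L) L (inflC L cA.a) (fun g h => ∏ j, (c j).a g h) := by
    have h2 : Cohom (L ≃ₐ[F] L) L (fun g h => inflC L cA.a g h ^ (∑ j, k j))
        (fun g h => ∏ j, (c j).a g h) := by
      have h3 : ∀ S : Finset J, Cohom (L ≃ₐ[F] L) L
          (fun g h => inflC L cA.a g h ^ (∑ j ∈ S, k j)) (fun g h => ∏ j ∈ S, (c j).a g h) := by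
        intro S
        induction S using Finset.induction_on with
        | empty =>
          apply Cohom.of_eq
          intro g h
          simp
        | insert j S hj ih =>
          refine Cohom.trans (Cohom.of_eq fun g h => ?_)
            (((h1 j).mul ih).trans (Cohom.of_eq fun g h => ?_))
          · rw [Finset.sum_insert hj, zpow_add₀ (hneA g h)]
          · rw [Finset.prod_insert hj]
      exact h3 Finset.univ
    refine Cohom.trans ?_ h2
    have h4 := Cohom.zpow_congr (G := L ≃ₐ[F] L) (L := L) (a := inflC L cA.a) (n := n) (r := 1)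
      (s := ∑ j, k j) hneA hperL hksum
    refine Cohom.trans (Cohom.of_eq fun g h => ?_) h4
    rw [zpow_one]
  have habL : Cohom (L ≃ₐ[F] L) L (fun g h => inflC L cA.a g h ^ (r : ℤ))
      (inflC L cB.a) := by
    refine Cohom.trans (Cohom.of_eq fun g h => ?_) (hab.infl (L := L))
    show inflC L cA.a g h ^ (r : ℤ) = algebraMap L₀ L (cA.a _ _ ^ (r : ℤ))
    rw [map_zpow₀]
    rfl
  have hbaL : Cohom (L ≃ₐ[F] L) L (fun g h => inflC L cB.a g h ^ (s : ℤ))
      (inflC L cA.a) := by
    refine Cohom.trans (Cohom.of_eq fun g h => ?_) (hba.infl (L := L))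
    show inflC L cB.a g h ^ (s : ℤ) = algebraMap L₀ L (cB.a _ _ ^ (s : ℤ))
    rw [map_zpow₀]
    rfl
  -- the common conclusion
  have key : ∀ (τ : Type u) [Fintype τ] [DecidableEq τ] [Nonempty τ]
      (N : PMod (L ≃ₐ[F] L) L τ),
      Cohom (L ≃ₐ[F] L) L (fun g h => inflC L cA.a g h ^ (t : ℤ)) N.a →
      BirationalTimes F A B (Fintype.card τ - 1) := by
    intro τ _ _ _ N hN
    refine core_stable fin_PRODP stmt_EX hinf (cA.toPMod.inflGal L) (cB.toPMod.inflGal L) N
      hmA' hmB' n r s t habL hbaL hperL hN J X c k (fun j => (j : ℕ) ^ t.factorization j) h1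
      ?_ ?_ ?_ ?_ ?_ hMprod
    · intro j
      have h5 : (((Nat.gcd n t : ℕ)) : ℤ) ∣ (((n / (j : ℕ) ^ n.factorization j : ℕ) : ℤ) *
          (((j : ℕ) ^ t.factorization j : ℕ) : ℤ)) := by
        rw [← Nat.cast_mul]
        exact Int.natCast_dvd_natCast.mpr (gcd_dvd_part n t j hn ht (hJp j))
      exact h5.trans (mul_dvd_mul_right (hk2 j) _)
    · intro j
      rw [hXcard2]
      exact goodFor_of_mult ht hgood j _ (hJp j)
    · intro i j hij
      rw [hXcard2, hXcard2]
      exact Nat.Coprime.pow _ _ ((Nat.coprime_primes (hJp i) (hJp j)).mpr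
          fun h => hij (Subtype.ext h))
    · refine (hcA.trans hprod.symm).trans ?_
      exact Finset.prod_congr rfl fun j _ => (hXcard2 j).symm
    · refine (hcB.trans hprod.symm).trans ?_
      exact Finset.prod_congr rfl fun j _ => (hXcard2 j).symm
  constructor
  · -- the index of the `t`-th power
    intro htn
    have hle : ∀ p, t.factorization p ≤ n.factorization p :=
      fun p => (Nat.factorization_le_iff_dvd ht.ne' hn.ne').mpr htn p
    have hmodj : ∀ j : J, HasMod (L ≃ₐ[F] L) L (fun g h => (c j).a g h ^ (t : ℤ))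
        ((j : ℕ) ^ (n.factorization j - t.factorization j)) := by
      intro j
      have := hXne j
      exact index_pt hinf (c j) j (n.factorization j) (t.factorization j) t (hJp j) (hle j)
        (hXcard2 j) (Nat.ordProj_dvd t j)
    have hmodall := hasMod_prod Finset.univ
      (fun (j : J) (g h : L ≃ₐ[F] L) => (c j).a g h ^ (t : ℤ)) _ (fun j _ => hmodj j)
    rw [prod_div hn htn] at hmodall
    have hmodt : HasMod (L ≃ₐ[F] L) L (fun g h => inflC L cA.a g h ^ (t : ℤ)) (n / t) := by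
      refine hasMod_of_cohom hmodall (Cohom.trans (Cohom.of_eq fun g h => ?_)
        (hMprod.symm.zpow (t : ℤ)))
      rw [Finset.prod_zpow]
    obtain ⟨τ, _, _, N, hcard, hNc⟩ := hmodt
    have hpos : 0 < n / t := Nat.div_pos (Nat.le_of_dvd hn htn) ht
    have : Nonempty τ := Fintype.card_pos_iff.mp (by omega)
    rw [← hcard]
    exact key τ N hNc.symm
  · intro hC'
    have hac := stmt_BRAUER F L₀ A C _ _ cA.toPMod cC.toPMod t hmA hmC hC'
    have hacL : Cohom (L ≃ₐ[F] L) L (fun g h => inflC L cA.a g h ^ (t : ℤ))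
        (inflC L cC.a) := by
      refine Cohom.trans (Cohom.of_eq fun g h => ?_) (hac.infl (L := L))
      show inflC L cA.a g h ^ (t : ℤ) = algebraMap L₀ L (cA.a _ _ ^ (t : ℤ))
      rw [map_zpow₀]
      rfl
    rw [← hcC]
    exact key _ (cC.toPMod.inflGal L) hacL

end Stb

end Pool.Agent.MP12f267
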