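import Mathlib
import Pool.Agent.Work.MP_12f267_stb.Asm

/-! Finite fields and the final theorem. -/

open TensorProduct

namespace Pool.Agent.MP12f267

universe u

namespace Stb

section Rat

variable (K : Type u) [Field K] (N : ℕ)

/-- The coordinates of the field of rational functions. -/
noncomputable def ratX (i : Fin N) : FractionRing (MvPolynomial (Fin N) K) :=
  algebraMap (MvPolynomial (Fin N) K) _ (MvPolynomial.X i)

lemma ratX_algInd : AlgebraicIndependent K (ratX K N) := by
  have h := (MvPolynomial.algebraicIndependent_X (Fin N) K).map'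
    (f := (IsScalarTower.toAlgHom K (MvPolynomial (Fin N) K)
      (FractionRing (MvPolynomial (Fin N) K))))
    (IsFractionRing.injective (MvPolynomial (Fin N) K) (FractionRing (MvPolynomial (Fin N) K)))
  exact h

lemma ratX_adjoin : IntermediateField.adjoin K (Set.range (ratX K N)) = ⊤ := by
  set E := IntermediateField.adjoin K (Set.range (ratX K N)) with hE
  have h : ∀ j, ratX K N j ∈ E := fun j => IntermediateField.subset_adjoin _ _ ⟨j, rfl⟩
  have hp : ∀ p : MvPolynomial (Fin N) K,
      algebraMap _ (FractionRing (MvPolynomial (Fin N) K)) p ∈ E := by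
    intro p
    induction p using MvPolynomial.induction_on with
    | C c =>
      have : algebraMap (MvPolynomial (Fin N) K) (FractionRing (MvPolynomial (Fin N) K))
          (MvPolynomial.C c) = algebraMap K (FractionRing (MvPolynomial (Fin N) K)) c := by
        rw [IsScalarTower.algebraMap_apply K (MvPolynomial (Fin N) K)
          (FractionRing (MvPolynomial (Fin N) K))]
        rfl
      rw [this]
      exact E.algebraMap_mem c
    | add p q hp hq =>
      rw [map_add]
      exact E.add_mem hp hq
    | mul_X p j hp =>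
      rw [map_mul]
      exact E.mul_mem hp (h j)
  rw [eq_top_iff]
  intro z _
  obtain ⟨p, q, _, rfl⟩ := IsFractionRing.div_surjective (A := MvPolynomial (Fin N) K) z
  exact E.div_mem (hp p) (hp q)

end Rat

/-- Birational varieties stay birational after multiplication with an affine space. -/
theorem times_of_birational (F A B : Type u) [Field F] [Ring A] [Algebra F A] [Ring B]
    [Algebra F B] (N : ℕ) (h : Birational F A B) : BirationalTimes F A B N := by
  obtain ⟨K, _, _, hA, hB⟩ := h
  exact ⟨FractionRing (MvPolynomial (Fin N) K), inferInstance, inferInstance,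
    ⟨K, inferInstance, inferInstance, inferInstance, inferInstance, ratX K N, hA,
      ratX_algInd K N, ratX_adjoin K N⟩,
    ⟨K, inferInstance, inferInstance, inferInstance, inferInstance, ratX K N, hB,
      ratX_algInd K N, ratX_adjoin K N⟩⟩

theorem stable_main (F A B : Type u) [Field F]
    [Ring A] [Algebra F A] [Algebra.IsCentral F A] [IsSimpleRing A] [FiniteDimensional F A]
    [Ring B] [Algebra F B] [Algebra.IsCentral F B] [IsSimpleRing B] [FiniteDimensional F B]
    (n t : ℕ) (hA : Module.finrank F A = n ^ 2) (hB : Module.finrank F B = n ^ 2)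
    (hAB : SameSubgroup F A B) (ht : 0 < t)
    (hgood : GoodPeriod t ∨ ∃ r : ℕ, IsBrauerMultiple F A B r ∧ GoodMultiplier r t) :
    (t ∣ n → BirationalTimes F A B (n / t - 1)) ∧
      ∀ (C : Type u) [Ring C] [Algebra F C] [Algebra.IsCentral F C] [IsSimpleRing C]
        [FiniteDimensional F C] (d : ℕ), Module.finrank F C = d ^ 2 →
        IsBrauerMultiple F A C t → BirationalTimes F A B (d - 1) := by
  rcases finite_or_infinite F with hF | hF
  · have h := finite_case stmt_EX (stmt_FIN stmt_DESC) F A B n hA hB
    exact ⟨fun _ => times_of_birational F A B _ h, fun C _ _ _ _ _ d _ _ =>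
      times_of_birational F A B _ h⟩
  · obtain ⟨⟨r₀, hr₀⟩, ⟨s, hs⟩⟩ := hAB
    obtain ⟨r, hr, hg⟩ : ∃ r : ℕ, IsBrauerMultiple F A B r ∧
        (GoodPeriod t ∨ GoodMultiplier r t) := by
      rcases hgood with h | ⟨r, hr, h⟩
      · exact ⟨r₀, hr₀, Or.inl h⟩
      · exact ⟨r, hr, Or.inr h⟩
    constructor
    · exact (main_infinite F A B A n n r s t hA hB hA hr hs ht hg).1
    · intro C _ _ _ _ _ d hC hAC
      exact (main_infinite F A B C n d r s t hA hB hC hr hs ht hg).2 hAC

lemma goodDegree_four : GoodDegree (2 ^ 2) := by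
  intro r hr
  have h1 : ¬ 2 ∣ r := by
    intro h
    have h2 := Nat.dvd_gcd h (by norm_num : 2 ∣ 2 ^ 2)
    rw [hr] at h2
    omega
  refine ⟨0, ?_⟩
  norm_num
  omega

lemma goodPeriod_four_mul {m : ℕ} (hm : Odd m) (h : GoodPeriod m) : GoodPeriod (2 ^ 2 * m) := by
  intro p e hp h1 h2
  have h2m : ¬ 2 ∣ m := hm.not_two_dvd_nat
  by_cases hp2 : p = 2
  · subst hp2
    have he : e = 2 := by
      apply le_antisymm
      · by_contra hlt
        have h3 : 2 ^ 3 ∣ 2 ^ 2 * m := (pow_dvd_pow 2 (by omega)).trans h1
        have h4 : 2 ^ 2 * 2 ∣ 2 ^ 2 * m := h3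
        exact h2m (Nat.dvd_of_mul_dvd_mul_left (by norm_num) h4)
      · by_contra hlt
        apply h2
        exact (pow_dvd_pow 2 (by omega : e + 1 ≤ 2)).trans (Dvd.intro _ rfl)
    rw [he]
    exact goodDegree_four
  · have hco : ∀ k : ℕ, Nat.Coprime (p ^ k) (2 ^ 2) := fun k =>
      Nat.Coprime.pow _ _ ((Nat.coprime_primes hp Nat.prime_two).mpr hp2)
    refine h p e hp ((hco e).dvd_of_dvd_mul_left h1) ?_
    intro h3
    exact h2 (h3.trans (Dvd.intro_left _ rfl))

theorem stable_final (F A B : Type u) [Field F]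
    [Ring A] [Algebra F A] [Algebra.IsCentral F A] [IsSimpleRing A] [FiniteDimensional F A]
    [Ring B] [Algebra F B] [Algebra.IsCentral F B] [IsSimpleRing B] [FiniteDimensional F B]
    (n t N : ℕ) (hA : Module.finrank F A = n ^ 2) (hB : Module.finrank F B = n ^ 2)
    (hAB : SameSubgroup F A B) (ht : 0 < t)
    (hgood : GoodPeriod t ∨ ∃ r : ℕ, IsBrauerMultiple F A B r ∧ GoodMultiplier r t)
    (hN : t * (N + 1) = n ∨ ∃ (C : Type u) (_ : Ring C) (_ : Algebra F C),
      Algebra.IsCentral F C ∧ IsSimpleRing C ∧ Module.finrank F C = (N + 1) ^ 2 ∧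
        IsBrauerMultiple F A C t) :
    BirationalTimes F A B N := by
  obtain ⟨h1, h2⟩ := stable_main F A B n t hA hB hAB ht hgood
  rcases hN with hN | ⟨C, _, _, _, _, hC, hAC⟩
  · have h3 := h1 (Dvd.intro _ hN)
    have h4 : n / t = N + 1 := by
      rw [← hN]
      exact Nat.mul_div_cancel_left _ ht
    rwa [h4, Nat.add_sub_cancel] at h3
  · have : FiniteDimensional F C := by
      apply Module.finite_of_finrank_pos
      rw [hC]
      positivity
    have h3 := h2 C (N + 1) hC hAC
    rwa [Nat.add_sub_cancel] at h3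

end Stb

end Pool.Agent.MP12f267
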